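import Mathlib
import Pool.Agent.N733.TG.J

set_option autoImplicit false

/-! Multiplicative functions linear at the primes avoid sets of tuples (helper733): tuples with entries at least `2`. -/

namespace Pool.Agent.N733.TG

open Finset Classical

lemma ones_count (k X : ℕ) (hX : 1 ≤ X) :
    {w : Fin k → ℕ | (∀ i, 1 ≤ w i ∧ w i ≤ X) ∧ ∃ i, w i = 1}.ncard ≤ k * X ^ (k - 1) := by
  have hsub : {w : Fin k → ℕ | (∀ i, 1 ≤ w i ∧ w i ≤ X) ∧ ∃ i, w i = 1} ⊆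
      (((univ : Finset (Fin k)).biUnion (fun i => Fintype.piFinset (fun j => if j = i then {1} else Icc 1 X)) :
        Finset (Fin k → ℕ)) : Set (Fin k → ℕ)) := by
    rintro w ⟨h1, i, hi⟩
    rw [mem_coe, mem_biUnion]
    refine ⟨i, mem_univ _, ?_⟩
    rw [Fintype.mem_piFinset]
    intro j
    split_ifs with hj
    · rw [hj, mem_singleton]; exact hi
    · rw [mem_Icc]; exact h1 j
  have h1 := Set.ncard_le_ncard hsub (finite_toSet _)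
  rw [Set.ncard_coe_finset] at h1
  refine h1.trans (card_biUnion_le.trans ?_)
  have h2 : ∀ i ∈ (univ : Finset (Fin k)), (Fintype.piFinset (fun j => if j = i then ({1} : Finset ℕ) else Icc 1 X)).card ≤
      X ^ (k - 1) := by
    intro i _
    rw [Fintype.card_piFinset]
    rw [← mul_prod_erase univ _ (mem_univ i)]
    simp only [if_true, card_singleton, one_mul]
    rw [prod_congr rfl (g := fun _ => X) (fun j hj => by
      rw [if_neg (ne_of_mem_erase hj), Nat.card_Icc, Nat.add_sub_cancel]), prod_const, card_erase_of_mem (mem_univ _),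
      card_univ, Fintype.card_fin]
  refine (sum_le_sum h2).trans ?_
  rw [sum_const, card_univ, Fintype.card_fin, smul_eq_mul]

/-- tuples, all scales; the count is known for the tuples of integers at least `2` -/
theorem keep_tuples2 {k : ℕ} (hk : 1 ≤ k) {F : Fin k → ℕ → ℕ} (hF : ∀ i, LM (F i)) {c : ℝ} (hc : 0 < c) (A : ℕ) (C₀ : ℝ) :
    ∃ N₀ : ℕ, ∀ N : ℕ, N₀ ≤ N → ∀ W : Set (Fin k → ℕ),
      (∀ X : ℕ, 1 ≤ X → ({w : Fin k → ℕ | (∀ i, 2 ≤ w i ∧ w i ≤ X) ∧ w ∈ W}.ncard : ℝ) ≤ C₀ * (X : ℝ) ^ ((k : ℝ) - c)) →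
      ({m : Fin k → ℕ | (∀ i, 1 ≤ m i ∧ m i ≤ N) ∧ ¬ ((∀ i, 2 ≤ F i (m i)) ∧ (fun i => F i (m i)) ∉ W)}.ncard : ℝ) ≤
        (N : ℝ) ^ k / Real.log N ^ A := by
  obtain ⟨c', hc'⟩ : ∃ c' : ℝ, c' = min c 1 := ⟨_, rfl⟩
  have hc'0 : 0 < c' := by rw [hc']; exact lt_min hc one_pos
  have hc'c : c' ≤ c := by rw [hc']; exact min_le_left _ _
  have hc'1 : c' ≤ 1 := by rw [hc']; exact min_le_right _ _
  have hk1 : (1 : ℝ) ≤ k := by exact_mod_cast hk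
  obtain ⟨N₀, hN₀⟩ := keep_tuples hF hc'0 (by linarith) A (|C₀| + k)
  refine ⟨N₀, fun N hN W hW => ?_⟩
  have h1 := hN₀ N hN {w | w ∈ W ∨ ∃ i, w i ≤ 1} (fun X hX => ?_)
  · refine le_trans ?_ h1
    have hfin : {m : Fin k → ℕ | (∀ i, 1 ≤ m i ∧ m i ≤ N) ∧ (fun i => F i (m i)) ∈ {w | w ∈ W ∨ ∃ i, w i ≤ 1}}.Finite := by
      apply (finite_toSet (Box k N)).subset
      intro m hm
      rw [mem_coe, mem_Box]
      exact hm.1
    have h2 : {m : Fin k → ℕ | (∀ i, 1 ≤ m i ∧ m i ≤ N) ∧ ¬ ((∀ i, 2 ≤ F i (m i)) ∧ (fun i => F i (m i)) ∉ W)} ⊆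
        {m : Fin k → ℕ | (∀ i, 1 ≤ m i ∧ m i ≤ N) ∧ (fun i => F i (m i)) ∈ {w | w ∈ W ∨ ∃ i, w i ≤ 1}} := by
      rintro m ⟨h3, h4⟩
      refine ⟨h3, ?_⟩
      rw [not_and_or, not_not] at h4
      rcases h4 with h4 | h4
      · right
        push Not at h4
        obtain ⟨i, hi⟩ := h4
        exact ⟨i, by simpa using Nat.lt_succ_iff.1 hi⟩
      · left; exact h4
    exact_mod_cast Set.ncard_le_ncard h2 hfin
  · have hX1 : (1 : ℝ) ≤ X := by exact_mod_cast hX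
    have hfin : ({w : Fin k → ℕ | (∀ i, 2 ≤ w i ∧ w i ≤ X) ∧ w ∈ W} ∪
        {w : Fin k → ℕ | (∀ i, 1 ≤ w i ∧ w i ≤ X) ∧ ∃ i, w i = 1}).Finite := by
      apply (finite_toSet (Box k X)).subset
      rintro w (hw | hw)
      · rw [mem_coe, mem_Box]
        exact fun i => ⟨le_trans (by norm_num) (hw.1 i).1, (hw.1 i).2⟩
      · rw [mem_coe, mem_Box]
        exact hw.1
    have h2 : {w : Fin k → ℕ | w ∈ {w | w ∈ W ∨ ∃ i, w i ≤ 1} ∧ ∀ i, 1 ≤ w i ∧ w i ≤ X} ⊆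
        {w : Fin k → ℕ | (∀ i, 2 ≤ w i ∧ w i ≤ X) ∧ w ∈ W} ∪
        {w : Fin k → ℕ | (∀ i, 1 ≤ w i ∧ w i ≤ X) ∧ ∃ i, w i = 1} := by
      rintro w ⟨h3, h4⟩
      by_cases h5 : ∃ i, w i = 1
      · right; exact ⟨h4, h5⟩
      · left
        push Not at h5
        refine ⟨fun i => ⟨?_, (h4 i).2⟩, ?_⟩
        · have := (h4 i).1
          have := h5 i
          omega
        · rcases h3 with h3 | ⟨i, hi⟩
          · exact h3
          · exact absurd (le_antisymm hi (h4 i).1) (h5 i)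
    have h3 := (Set.ncard_le_ncard h2 hfin).trans (Set.ncard_union_le _ _)
    have h4 : (({w : Fin k → ℕ | w ∈ {w | w ∈ W ∨ ∃ i, w i ≤ 1} ∧ ∀ i, 1 ≤ w i ∧ w i ≤ X}.ncard : ℕ) : ℝ) ≤
        (({w : Fin k → ℕ | (∀ i, 2 ≤ w i ∧ w i ≤ X) ∧ w ∈ W}.ncard : ℕ) : ℝ) +
        (({w : Fin k → ℕ | (∀ i, 1 ≤ w i ∧ w i ≤ X) ∧ ∃ i, w i = 1}.ncard : ℕ) : ℝ) := by exact_mod_cast h3
    have h5 : ((k * X ^ (k - 1) : ℕ) : ℝ) = k * (X : ℝ) ^ ((k : ℝ) - 1) := by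
      push_cast
      rw [← Real.rpow_natCast, Nat.cast_sub hk, Nat.cast_one]
    have h6 : (({w : Fin k → ℕ | (∀ i, 1 ≤ w i ∧ w i ≤ X) ∧ ∃ i, w i = 1}.ncard : ℕ) : ℝ) ≤ k * (X : ℝ) ^ ((k : ℝ) - 1) := by
      rw [← h5]
      exact_mod_cast ones_count k X hX
    have e1 : (X : ℝ) ^ ((k : ℝ) - 1) ≤ (X : ℝ) ^ ((k : ℝ) - c') := Real.rpow_le_rpow_of_exponent_le hX1 (by linarith)
    have e2 : (X : ℝ) ^ ((k : ℝ) - c) ≤ (X : ℝ) ^ ((k : ℝ) - c') := Real.rpow_le_rpow_of_exponent_le hX1 (by linarith)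
    have e3 : C₀ * (X : ℝ) ^ ((k : ℝ) - c) ≤ |C₀| * (X : ℝ) ^ ((k : ℝ) - c') :=
      (mul_le_mul_of_nonneg_right (le_abs_self _) (by positivity)).trans (mul_le_mul_of_nonneg_left e2 (abs_nonneg _))
    have e4 : (k : ℝ) * (X : ℝ) ^ ((k : ℝ) - 1) ≤ k * (X : ℝ) ^ ((k : ℝ) - c') := mul_le_mul_of_nonneg_left e1 (by linarith)
    rw [add_mul]
    linarith [hW X hX]

end Pool.Agent.N733.TG
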