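import Mathlib
import Pool.Agent.N733.TG.C

set_option autoImplicit false

/-! Almost all values `f m + a` are not exceptional (helper733). -/

namespace Pool.Agent.N733.TG

open Finset Classical

lemma y_facts {N k : ℕ} (hN : 3 ≤ N) (hk : 1 ≤ k) (h3 : k ^ 3 ≤ N) : N ≤ (N / k) ^ 2 := by
  obtain ⟨y, hy⟩ : ∃ y, y = N / k := ⟨_, rfl⟩
  rw [← hy]
  have h1 : N < k * (y + 1) := by
    rw [hy]
    exact Nat.lt_mul_div_succ N (by omega)
  have h2 : k ^ 2 ≤ y := by
    have h4 : k * k ^ 2 < k * (y + 1) := by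
      calc k * k ^ 2 = k ^ 3 := by ring
        _ ≤ N := h3
        _ < _ := h1
    have := lt_of_mul_lt_mul_left h4 (by omega : 0 ≤ k)
    omega
  rcases Nat.lt_or_ge y 3 with h5 | h5
  · have : k ≤ 1 := by
      by_contra h6
      have : 2 ^ 2 ≤ k ^ 2 := Nat.pow_le_pow_left (by omega) 2
      omega
    have hk1 : k = 1 := by omega
    rw [hk1, Nat.div_one] at hy
    omega
  · have h6 : N ^ 2 ≤ (y ^ 2) ^ 2 := by
      calc N ^ 2 ≤ (k * (y + 1)) ^ 2 := Nat.pow_le_pow_left h1.le 2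
        _ = k ^ 2 * (y + 1) ^ 2 := by ring
        _ ≤ y * (y + 1) ^ 2 := Nat.mul_le_mul_right _ h2
        _ ≤ (y ^ 2) ^ 2 := by nlinarith
    exact (Nat.pow_le_pow_iff_left (by norm_num)).1 h6

theorem dens {f : ℕ → ℕ} {c : ℤ} (hf : SM f c) (a : ℤ) (Good : ℕ → Prop) (hE : ∀ A, EB a Good A)
    (ε : ℝ) (hε : 0 < ε) : ∃ N₀ : ℕ, ∀ N : ℕ, N₀ ≤ N →
      (((Icc 1 N).filter (fun m => ¬ (0 < (f m : ℤ) + a ∧ Good ((f m : ℤ) + a).toNat))).card : ℝ) ≤ ε * N := by
  obtain ⟨P, hP⟩ := hf.prime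
  obtain ⟨C, D, hCD⟩ := hf.growth
  obtain ⟨C1, hC10, hC1⟩ := few_large
  obtain ⟨E, hEE⟩ : ∃ E, E = D + 3 := ⟨_, rfl⟩
  have hE3 : (3 : ℝ) ≤ E := by
    rw [hEE]; push_cast
    have : (0 : ℝ) ≤ D := Nat.cast_nonneg _
    linarith
  obtain ⟨J, hJ⟩ := exists_nat_gt (16 * E / ε)
  obtain ⟨NU, hNU⟩ := Uk hf a Good J hE
  have hlog := (Real.tendsto_log_atTop.comp (tendsto_natCast_atTop_atTop (R := ℝ))).eventually_ge_atTop
    (16 * E * C1 / ε + 16 / ε + 1)
  rw [Filter.eventually_atTop] at hlog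
  obtain ⟨n1, hn1⟩ := hlog
  obtain ⟨Z, hZ⟩ := exists_nat_gt (8 / ε + P + a.natAbs + c.natAbs + 1)
  obtain ⟨K0, hK0⟩ := exists_nat_gt (8 / ε)
  refine ⟨max n1 (max NU (max ((Z + 1) ^ (J + 1)) (max ((C + 1) ^ (D + 2)) (max (K0 ^ 2) 3)))), fun N hN => ?_⟩
  have b1 : n1 ≤ N := le_trans (le_max_left _ _) hN
  have c2 := le_trans (le_max_right n1 _) hN
  have b2 : NU ≤ N := le_trans (le_max_left _ _) c2
  have c3 := le_trans (le_max_right NU _) c2
  have b3 : (Z + 1) ^ (J + 1) ≤ N := le_trans (le_max_left _ _) c3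
  have c4 := le_trans (le_max_right _ _) c3
  have b4 : (C + 1) ^ (D + 2) ≤ N := le_trans (le_max_left _ _) c4
  have c5 := le_trans (le_max_right _ _) c4
  have b5 : K0 ^ 2 ≤ N := le_trans (le_max_left _ _) c5
  have b6 : 3 ≤ N := le_trans (le_max_right _ _) c5
  have hN0 : (0 : ℝ) < N := by exact_mod_cast (by omega : 0 < N)
  have hN1 : (1 : ℝ) ≤ N := by exact_mod_cast (by omega : 1 ≤ N)
  obtain ⟨L, hL⟩ : ∃ L, L = Real.log N := ⟨_, rfl⟩
  have hLge : 16 * E * C1 / ε + 16 / ε + 1 ≤ L := by rw [hL]; exact hn1 N b1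
  have hp1 : (0 : ℝ) ≤ 16 * E * C1 / ε := by positivity
  have hp2 : (0 : ℝ) ≤ 16 / ε := by positivity
  have hL1 : 1 ≤ L := by linarith
  -- parameters
  obtain ⟨Y, hY⟩ : ∃ Y : ℝ, Y = (N : ℝ) ^ (1 / (E : ℝ)) := ⟨_, rfl⟩
  obtain ⟨K, hK⟩ : ∃ K : ℕ, K = ⌊Y⌋₊ := ⟨_, rfl⟩
  obtain ⟨z, hz⟩ : ∃ z : ℕ, z = ⌊(N : ℝ) ^ (1 / ((J + 1 : ℕ) : ℝ))⌋₊ := ⟨_, rfl⟩
  have hJ1 : ((J + 1 : ℕ) : ℝ) ≠ 0 := by positivity
  have hE0 : (E : ℝ) ≠ 0 := by linarith
  have hz1 : N < (z + 1) ^ (J + 1) := by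
    have h1 : (N : ℝ) ^ (1 / ((J + 1 : ℕ) : ℝ)) < ((z + 1 : ℕ) : ℝ) := by
      rw [hz]; push_cast
      exact Nat.lt_floor_add_one _
    have h2 : (N : ℝ) < (((z + 1) ^ (J + 1) : ℕ) : ℝ) := by
      calc (N : ℝ) = ((N : ℝ) ^ (1 / ((J + 1 : ℕ) : ℝ))) ^ (J + 1) := by
            rw [← Real.rpow_natCast, ← Real.rpow_mul hN0.le, one_div_mul_cancel hJ1, Real.rpow_one]
        _ < (((z + 1 : ℕ) : ℝ)) ^ (J + 1) := pow_lt_pow_left₀ h1 (by positivity) (by omega)
        _ = _ := by push_cast; ring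
    exact_mod_cast h2
  have hzZ : Z ≤ z := by
    by_contra h
    push Not at h
    have : (z + 1) ^ (J + 1) ≤ (Z + 1) ^ (J + 1) := Nat.pow_le_pow_left (by omega) _
    omega
  have hZr : 8 / ε + P + a.natAbs + c.natAbs + 1 < (z : ℝ) := by
    have : (Z : ℝ) ≤ z := by exact_mod_cast hzZ
    linarith
  have h8e : (0 : ℝ) < 8 / ε := by positivity
  have hzP : P ≤ z := by
    have : (P : ℝ) ≤ z := by
      have h1 : (0 : ℝ) ≤ a.natAbs := Nat.cast_nonneg _
      have h2 : (0 : ℝ) ≤ c.natAbs := Nat.cast_nonneg _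
      linarith
    exact_mod_cast this
  have hza : a.natAbs + c.natAbs ≤ z := by
    have : ((a.natAbs + c.natAbs : ℕ) : ℝ) ≤ z := by
      push_cast
      have h1 : (0 : ℝ) ≤ P := Nat.cast_nonneg _
      linarith
    exact_mod_cast this
  have hz8 : 8 / ε ≤ (z : ℝ) := by
    have h1 : (0 : ℝ) ≤ a.natAbs := Nat.cast_nonneg _
    have h2 : (0 : ℝ) ≤ c.natAbs := Nat.cast_nonneg _
    have h3 : (0 : ℝ) ≤ P := Nat.cast_nonneg _
    linarith
  have hz1' : 1 ≤ z := by
    have : (0 : ℝ) < z := by linarith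
    exact_mod_cast this
  have hlz : Real.log z ≤ L / (J + 1) := by
    have h1 : (z : ℝ) ≤ (N : ℝ) ^ (1 / ((J + 1 : ℕ) : ℝ)) := by
      rw [hz]
      exact Nat.floor_le (by positivity)
    have h2 := Real.log_le_log (by exact_mod_cast hz1') h1
    rw [Real.log_rpow hN0] at h2
    rw [hL]
    refine h2.trans (le_of_eq ?_)
    push_cast
    ring
  have hY0 : 0 < Y := by rw [hY]; positivity
  have hlY : Real.log Y = L / E := by
    rw [hY, Real.log_rpow hN0, hL]
    ring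
  have hY1 : 1 < Y := by
    rw [← Real.log_pos_iff hY0.le, hlY]
    positivity
  have hKY : (K : ℝ) ≤ Y := by rw [hK]; exact Nat.floor_le hY0.le
  have hYE : Y ^ E = N := by
    rw [hY, ← Real.rpow_natCast, ← Real.rpow_mul hN0.le, one_div_mul_cancel hE0, Real.rpow_one]
  have hkE : ∀ k : ℕ, k ≤ K → k ^ E ≤ N := by
    intro k hk
    have h1 : (k : ℝ) ≤ Y := le_trans (by exact_mod_cast hk) hKY
    have h2 : ((k ^ E : ℕ) : ℝ) ≤ N := by
      push_cast
      rw [← hYE]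
      exact pow_le_pow_left₀ (Nat.cast_nonneg _) h1 E
    exact_mod_cast h2
  -- the four parts
  obtain ⟨S1, hS1⟩ : ∃ S, S = (Icc 1 N).filter (fun m => Y < (sp z m : ℝ)) := ⟨_, rfl⟩
  obtain ⟨S2, hS2⟩ : ∃ S, S = (Icc 1 N).filter (fun m => ∃ p : ℕ, p.Prime ∧ z < p ∧ p ^ 2 ∣ m) := ⟨_, rfl⟩
  obtain ⟨S4, hS4⟩ : ∃ S, S = (Icc 1 K).biUnion (fun k => (UU f a Good z k (N / k)).image (fun u => k * u)) := ⟨_, rfl⟩
  have hcov : (Icc 1 N).filter (fun m => ¬ (0 < (f m : ℤ) + a ∧ Good ((f m : ℤ) + a).toNat)) ⊆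
      ((S1 ∪ S2) ∪ Icc 1 K) ∪ S4 := by
    intro m hm
    rw [mem_filter, mem_Icc] at hm
    obtain ⟨⟨hm1, hmN⟩, hbad⟩ := hm
    rw [mem_union, mem_union, mem_union]
    by_cases h1 : Y < (sp z m : ℝ)
    · left; left; left
      rw [hS1, mem_filter, mem_Icc]
      exact ⟨⟨hm1, hmN⟩, h1⟩
    by_cases h2 : ∃ p : ℕ, p.Prime ∧ z < p ∧ p ^ 2 ∣ m
    · left; left; right
      rw [hS2, mem_filter, mem_Icc]
      exact ⟨⟨hm1, hmN⟩, h2⟩
    have hmul := sp_mul_rp z m (by omega)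
    have hk1 := sp_pos z m
    have hu1 := rp_pos z m
    have hkK : sp z m ≤ K := by
      rw [hK]
      exact Nat.le_floor (not_lt.1 h1)
    by_cases h3 : rp z m = 1
    · left; right
      rw [h3, mul_one] at hmul
      rw [mem_Icc]
      omega
    right
    have hrough : Rough z (rp z m) := fun p hp hd => lt_of_dvd_rp hp hd
    have hsq : Squarefree (rp z m) := by
      rw [Nat.squarefree_iff_prime_squarefree]
      intro p hp hd
      apply h2
      refine ⟨p, hp, hrough p hp ((dvd_mul_right p p).trans hd), ?_⟩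
      rw [pow_two]
      rw [← hmul]
      exact hd.trans (dvd_mul_left _ _)
    have hfm : f m = f (sp z m) * f (rp z m) := by
      conv_lhs => rw [← hmul]
      exact hf.mul _ _ (coprime_sp_rp z m)
    have hbig := lower hf hP hzP hsq h3 hrough a.natAbs hza
    have hfk := hf.pos (sp z m) hk1
    have hpos : 0 < (f m : ℤ) + a := by
      have h4 : a.natAbs < f m := by
        rw [hfm]
        nlinarith
      omega
    have hng : ¬ Good ((f m : ℤ) + a).toNat := fun h => hbad ⟨hpos, h⟩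
    rw [hS4, mem_biUnion]
    refine ⟨sp z m, by rw [mem_Icc]; exact ⟨hk1, hkK⟩, ?_⟩
    rw [mem_image]
    refine ⟨rp z m, ?_, hmul⟩
    rw [UU, mem_filter, mem_Icc]
    have e1 : ((f m : ℕ) : ℤ) = (f (sp z m) : ℤ) * f (rp z m) := by
      rw [hfm]
      push_cast
      ring
    rw [e1] at hpos hng
    refine ⟨⟨hu1, ?_⟩, hsq, hrough, hpos, hng⟩
    rw [Nat.le_div_iff_mul_le hk1, mul_comm, hmul]
    exact hmN
  -- the sizes
  have q1 : (S1.card : ℝ) ≤ ε / 4 * N := by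
    have h1 := hC1 N z Y hz1' hY1
    rw [hS1]
    refine h1.trans ?_
    rw [hlY]
    have hEpos : (0 : ℝ) < E := by linarith
    have hJ2 : 16 * E / ε < (J : ℝ) + 1 := by linarith
    have hJp : (0 : ℝ) < (J : ℝ) + 1 := by positivity
    have h2 : L / (J + 1) ≤ ε * L / (16 * E) := by
      rw [div_le_div_iff₀ hJp (by positivity)]
      rw [div_lt_iff₀ hε] at hJ2
      nlinarith
    have h3 : C1 ≤ ε * L / (16 * E) := by
      rw [le_div_iff₀ (by positivity)]
      have : 16 * E * C1 / ε ≤ L := by linarith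
      rw [div_le_iff₀ hε] at this
      linarith
    have h4 : Real.log z + C1 ≤ ε * L / (8 * E) := by
      have : ε * L / (8 * E) = ε * L / (16 * E) + ε * L / (16 * E) := by
        field_simp
        ring
      rw [this]
      linarith
    rw [div_le_iff₀ (by positivity)]
    have h5 : ε / 4 * N * (L / E) = 2 * N * (ε * L / (8 * E)) := by
      field_simp
      ring
    rw [h5]
    exact mul_le_mul_of_nonneg_left h4 (by positivity)
  have q2 : (S2.card : ℝ) ≤ ε / 8 * N := by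
    rw [hS2]
    refine (few_square N z hz1').trans ?_
    rw [div_le_iff₀ (by exact_mod_cast hz1')]
    rw [div_le_iff₀ hε] at hz8
    nlinarith
  have q3 : ((Icc 1 K).card : ℝ) ≤ ε / 8 * N := by
    rw [Nat.card_Icc, Nat.add_sub_cancel]
    have h1 : K ^ 2 ≤ N := by
      rcases Nat.eq_zero_or_pos K with h0 | h0
      · rw [h0]; omega
      · refine le_trans (Nat.pow_le_pow_right h0 (by omega)) (hkE K le_rfl)
    have h2 : K0 * K ≤ N := by
      have h3 : (K0 * K) ^ 2 ≤ N ^ 2 := by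
        calc (K0 * K) ^ 2 = K0 ^ 2 * K ^ 2 := by ring
          _ ≤ N * N := Nat.mul_le_mul b5 h1
          _ = N ^ 2 := by ring
      exact (Nat.pow_le_pow_iff_left (by norm_num)).1 h3
    have h3 : (K0 : ℝ) * K ≤ N := by exact_mod_cast h2
    have h4 : 8 / ε * K ≤ N := by
      refine le_trans ?_ h3
      exact mul_le_mul_of_nonneg_right hK0.le (Nat.cast_nonneg _)
    have h5 : (K : ℝ) = ε / 8 * (8 / ε * K) := by field_simp
    rw [h5]
    exact mul_le_mul_of_nonneg_left h4 (by positivity)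
  have q4 : (S4.card : ℝ) ≤ ε / 4 * N := by
    have h1 : (S4.card : ℝ) ≤ ∑ k ∈ Icc 1 K, ((UU f a Good z k (N / k)).card : ℝ) := by
      have h0 : S4.card ≤ ∑ k ∈ Icc 1 K, (UU f a Good z k (N / k)).card := by
        rw [hS4]
        exact card_biUnion_le.trans (sum_le_sum (fun k _ => card_image_le))
      exact_mod_cast h0
    have h2 : ∀ k ∈ Icc 1 K, ((UU f a Good z k (N / k)).card : ℝ) ≤ N / L ^ 2 * (1 / k) := by
      intro k hk
      rw [mem_Icc] at hk
      have e1 := hkE k hk.2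
      have e3 : k ^ 3 ≤ N := le_trans (Nat.pow_le_pow_right hk.1 (by omega)) e1
      have e4 : f k ≤ N / k := by
        rw [Nat.le_div_iff_mul_le (by omega)]
        calc f k * k ≤ C * k ^ D * k := Nat.mul_le_mul_right _ (hCD k hk.1)
          _ = C * k ^ (D + 1) := by ring
          _ ≤ N := by
            rcases Nat.lt_or_ge k (C + 1) with h | h
            · calc C * k ^ (D + 1) ≤ (C + 1) * (C + 1) ^ (D + 1) :=
                    Nat.mul_le_mul (by omega) (Nat.pow_le_pow_left h.le _)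
                _ = (C + 1) ^ (D + 2) := by ring
                _ ≤ N := b4
            · calc C * k ^ (D + 1) ≤ k * k ^ (D + 1) := Nat.mul_le_mul_right _ (by omega)
                _ = k ^ (D + 2) := by ring
                _ ≤ k ^ E := Nat.pow_le_pow_right hk.1 (by omega)
                _ ≤ N := e1
      have e5 := hNU N b2 z k (N / k) hz1 hk.1 (Nat.div_le_self _ _) e4 (y_facts b6 hk.1 e3)
      refine e5.trans ?_
      rw [← hL]
      have e6 : ((N / k : ℕ) : ℝ) ≤ N / k := Nat.cast_div_le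
      calc ((N / k : ℕ) : ℝ) / L ^ 2 ≤ (N / k) / L ^ 2 := div_le_div_of_nonneg_right e6 (by positivity)
        _ = N / L ^ 2 * (1 / k) := by ring
    refine h1.trans ((sum_le_sum h2).trans ?_)
    rw [← mul_sum]
    have h3 := Pool.Agent.TH935.DSB.harm K
    have h4 : 1 + Real.log K ≤ 2 * L := by
      have : Real.log K ≤ L / E := by
        rcases Nat.eq_zero_or_pos K with h0 | h0
        · rw [h0, Nat.cast_zero, Real.log_zero]
          positivity
        · rw [← hlY]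
          exact Real.log_le_log (by exact_mod_cast h0) hKY
      have h5 : L / E ≤ L := div_le_self (by linarith) (by linarith)
      linarith
    calc N / L ^ 2 * ∑ k ∈ Icc 1 K, (1 / (k : ℝ)) ≤ N / L ^ 2 * (2 * L) :=
          mul_le_mul_of_nonneg_left (h3.trans h4) (by positivity)
      _ = 2 * N / L := by field_simp
      _ ≤ ε / 4 * N := by
          rw [div_le_iff₀ (by linarith)]
          have h6 : 16 / ε ≤ L := by linarith
          rw [div_le_iff₀ hε] at h6
          nlinarith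
  calc (((Icc 1 N).filter (fun m => ¬ (0 < (f m : ℤ) + a ∧ Good ((f m : ℤ) + a).toNat))).card : ℝ)
      ≤ ((((S1 ∪ S2) ∪ Icc 1 K) ∪ S4).card : ℝ) := by exact_mod_cast card_le_card hcov
    _ ≤ (S1.card : ℝ) + S2.card + (Icc 1 K).card + S4.card := by
        have a1 := card_union_le ((S1 ∪ S2) ∪ Icc 1 K) S4
        have a2 := card_union_le (S1 ∪ S2) (Icc 1 K)
        have a3 := card_union_le S1 S2
        have : (((S1 ∪ S2) ∪ Icc 1 K) ∪ S4).card ≤ S1.card + S2.card + (Icc 1 K).card + S4.card := by omega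
        exact_mod_cast this
    _ ≤ ε * N := by
        have : (0 : ℝ) ≤ ε * N := by positivity
        linarith

end Pool.Agent.N733.TG
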