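import Mathlib
import Pool.Agent.N733.TG.D

set_option autoImplicit false

/-! Almost all values `α f m + h` have a property which holds for most members of the class of `h` modulo every `q`
(helper733). -/

namespace Pool.Agent.N733.TG

open Finset Classical

/-- few members of the classes `h mod q` do not have the property `Q`, for all `q ≤ X ^ (7 / 12)` -/
def CB (h : ℤ) (Q : ℕ → Prop) (A : ℕ) : Prop :=
  ∃ X₀ : ℕ, ∀ X : ℕ, X₀ ≤ X → ∀ q : ℕ, 1 ≤ q → (q : ℝ) ≤ (X : ℝ) ^ (7 / 12 : ℝ) → ∀ S : Finset ℕ,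
    (∀ n ∈ S, 0 < n ∧ n ≤ X ∧ (n : ℤ) ≡ h [ZMOD q] ∧ ¬ Q n) →
    (S.card : ℝ) ≤ X / (q * Real.log X ^ A)

lemma ev_all (α H A : ℕ) : ∃ X₀ : ℝ, 3 ≤ X₀ ∧ ∀ X : ℝ, X₀ ≤ X → (α : ℝ) * X ^ (1 / 2 : ℝ) ≤ X ^ (7 / 12 : ℝ) ∧
    2 * (H : ℝ) * Real.log X ^ A ≤ X ^ (1 / 2 : ℝ) ∧ 4 * ((H : ℝ) + 2) ≤ Real.log X := by
  have h1 := (tendsto_rpow_atTop (show (0 : ℝ) < 7 / 12 - 1 / 2 by norm_num)).eventually_ge_atTop (α : ℝ)
  have h2 := (isLittleO_log_rpow_rpow_atTop (s := (1 / 2 : ℝ)) (A : ℝ) (by norm_num)).bound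
    (c := 1 / (2 * H + 1)) (by positivity)
  have h3 := Real.tendsto_log_atTop.eventually_ge_atTop (4 * ((H : ℝ) + 2))
  obtain ⟨X₀, hX₀⟩ := Filter.eventually_atTop.1 (h1.and (h2.and h3))
  refine ⟨max X₀ 3, le_max_right _ _, fun X hX => ?_⟩
  obtain ⟨a1, a2, a3⟩ := hX₀ X ((le_max_left _ _).trans hX)
  have hX3 : (3 : ℝ) ≤ X := (le_max_right _ _).trans hX
  have hX0 : 0 < X := by linarith
  refine ⟨?_, ?_, a3⟩
  · calc (α : ℝ) * X ^ (1 / 2 : ℝ) ≤ X ^ (7 / 12 - 1 / 2 : ℝ) * X ^ (1 / 2 : ℝ) := by gcongr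
      _ = X ^ (7 / 12 : ℝ) := by rw [← Real.rpow_add hX0]; congr 1; ring
  · have hl : 0 ≤ Real.log X := Real.log_nonneg (by linarith)
    rw [Real.norm_of_nonneg (by positivity), Real.norm_of_nonneg (by positivity), Real.rpow_natCast] at a2
    have h4 : 0 ≤ Real.log X ^ A := by positivity
    calc 2 * (H : ℝ) * Real.log X ^ A ≤ (2 * H + 1) * Real.log X ^ A := by nlinarith
      _ ≤ (2 * H + 1) * (1 / (2 * H + 1) * X ^ (1 / 2 : ℝ)) := by gcongr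
      _ = X ^ (1 / 2 : ℝ) := by field_simp

theorem eb_of (α : ℕ) (hα : 1 ≤ α) (h : ℤ) (Q : ℕ → Prop) (hQ : ∀ A, CB h Q A) (A : ℕ) :
    EB 1 (fun n => 0 < (α : ℤ) * ((n : ℤ) - 1) + h ∧ Q ((α : ℤ) * ((n : ℤ) - 1) + h).toNat) A := by
  obtain ⟨X₁, h1⟩ := hQ (A + 1)
  obtain ⟨H, hH⟩ : ∃ H : ℕ, H = h.natAbs + 1 := ⟨_, rfl⟩
  obtain ⟨X₂, h23, h2⟩ := ev_all α H A
  refine ⟨max X₂ (X₁ + 1), fun X hX q hq1 hqX V hV => ?_⟩
  obtain ⟨a1, a2, a3⟩ := h2 X ((le_max_left _ _).trans hX)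
  have hX1 : (X₁ : ℝ) + 1 ≤ X := (le_max_right _ _).trans hX
  have hX3 : 3 ≤ X := h23.trans ((le_max_left _ _).trans hX)
  have hX0 : 0 < X := by linarith
  have hα' : (1 : ℝ) ≤ α := by exact_mod_cast hα
  have hq' : (1 : ℝ) ≤ q := by exact_mod_cast hq1
  have hH' : (1 : ℝ) ≤ H := by rw [hH]; push_cast; linarith [Nat.cast_nonneg (α := ℝ) h.natAbs]
  have hqs : (q : ℝ) ≤ X ^ (1 / 2 : ℝ) := by
    rw [← Real.sqrt_eq_rpow]
    exact Real.le_sqrt_of_sq_le hqX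
  have hl1 : 1 ≤ Real.log X := by linarith
  have hl0 : 0 < Real.log X := by linarith
  -- the two parts
  obtain ⟨V1, hV1⟩ : ∃ V1, V1 = V.filter (fun v : ℕ => (α : ℤ) * ((q : ℤ) * v) + h ≤ 0) := ⟨_, rfl⟩
  obtain ⟨V2, hV2⟩ : ∃ V2, V2 = V.filter (fun v : ℕ => ¬ (α : ℤ) * ((q : ℤ) * v) + h ≤ 0) := ⟨_, rfl⟩
  have hcard : V.card = V1.card + V2.card := by
    rw [hV1, hV2]
    exact (card_filter_add_card_filter_not (s := V) (fun v : ℕ => (α : ℤ) * ((q : ℤ) * v) + h ≤ 0)).symm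
  have hV1c : V1.card ≤ H := by
    have hsub : V1 ⊆ range H := by
      intro v hv
      rw [hV1, mem_filter] at hv
      rw [mem_range, hH]
      have e1 : (v : ℤ) ≤ (α : ℤ) * ((q : ℤ) * v) := by
        have : (1 : ℤ) ≤ (α : ℤ) * q := by
          have := Nat.mul_le_mul hα hq1
          have h3 : (1 : ℕ) * 1 ≤ α * q := this
          exact_mod_cast h3
        have h4 : (0 : ℤ) ≤ v := Int.natCast_nonneg v
        nlinarith
      omega
    calc V1.card ≤ (range H).card := card_le_card hsub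
      _ = H := card_range H
  have hXn : (⌊X⌋₊ : ℝ) ≤ X := Nat.floor_le hX0.le
  obtain ⟨X', hX'⟩ : ∃ X' : ℕ, X' = α * ⌊X⌋₊ + H := ⟨_, rfl⟩
  have hfl : X - 1 < ⌊X⌋₊ := by
    have := Nat.lt_floor_add_one X
    linarith
  have hX'le : (X' : ℝ) ≤ α * X + H := by
    rw [hX']
    push_cast
    have := mul_le_mul_of_nonneg_left hXn (by linarith : (0 : ℝ) ≤ α)
    linarith
  have hX'ge : X ≤ X' := by
    rw [hX']
    push_cast
    have h3 : X - 1 ≤ α * (⌊X⌋₊ : ℝ) := by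
      have : (0 : ℝ) ≤ (⌊X⌋₊ : ℝ) := Nat.cast_nonneg _
      nlinarith
    linarith
  have hX'1 : X₁ ≤ X' := by
    have : (X₁ : ℝ) ≤ X' := by linarith
    exact_mod_cast this
  have hlX : Real.log X ≤ Real.log X' := Real.log_le_log hX0 hX'ge
  have hαq : ((α * q : ℕ) : ℝ) ≤ (X' : ℝ) ^ (7 / 12 : ℝ) := by
    push_cast
    calc (α : ℝ) * q ≤ α * X ^ (1 / 2 : ℝ) := by gcongr
      _ ≤ X ^ (7 / 12 : ℝ) := a1
      _ ≤ (X' : ℝ) ^ (7 / 12 : ℝ) := Real.rpow_le_rpow hX0.le hX'ge (by norm_num)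
  have hinj : Set.InjOn (fun v : ℕ => ((α : ℤ) * ((q : ℤ) * v) + h).toNat) (V2 : Set ℕ) := by
    intro v hv w hw hvw
    rw [hV2, mem_coe, mem_filter] at hv hw
    simp only at hvw
    have e3 : (α : ℤ) * ((q : ℤ) * v) + h = (α : ℤ) * ((q : ℤ) * w) + h := by omega
    have e4 : (α : ℤ) * ((q : ℤ) * v) = (α : ℤ) * ((q : ℤ) * w) := by linarith
    have e5 := mul_left_cancel₀ (by exact_mod_cast (by omega : α ≠ 0) : (α : ℤ) ≠ 0) e4
    have e6 : (v : ℤ) = w := mul_left_cancel₀ (by exact_mod_cast (by omega : q ≠ 0)) e5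
    exact_mod_cast e6
  have hV2c : (V2.card : ℝ) ≤ X' / ((α * q : ℕ) * Real.log X' ^ (A + 1)) := by
    rw [← card_image_of_injOn hinj]
    refine h1 X' hX'1 (α * q) (Nat.mul_pos hα hq1) hαq _ ?_
    intro n hn
    rw [mem_image] at hn
    obtain ⟨v, hv, rfl⟩ := hn
    rw [hV2, mem_filter, not_le] at hv
    obtain ⟨e1, e2, e3⟩ := hV v hv.1
    have e4 : (α : ℤ) * ((((q : ℤ) * v + 1).toNat : ℤ) - 1) + h = (α : ℤ) * ((q : ℤ) * v) + h := by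
      rw [Int.toNat_of_nonneg e1.le]
      ring
    beta_reduce at e3
    rw [e4] at e3
    have e5 : ¬ Q ((α : ℤ) * ((q : ℤ) * v) + h).toNat := fun h3 => e3 ⟨hv.2, h3⟩
    have e6 : ((((α : ℤ) * ((q : ℤ) * v) + h).toNat : ℕ) : ℤ) = (α : ℤ) * ((q : ℤ) * v) + h :=
      Int.toNat_of_nonneg hv.2.le
    refine ⟨by omega, ?_, ?_, e5⟩
    · have e7 : (q : ℤ) * v ≤ ⌊X⌋₊ := by
        have e8 : ((q * v : ℕ) : ℝ) ≤ X := by
          push_cast at e2 ⊢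
          linarith
        have := Nat.le_floor e8
        exact_mod_cast this
      have e9 : (α : ℤ) * ((q : ℤ) * v) ≤ α * ⌊X⌋₊ := mul_le_mul_of_nonneg_left e7 (Int.natCast_nonneg _)
      have e10 : (X' : ℤ) = α * ⌊X⌋₊ + H := by rw [hX']; push_cast; rfl
      omega
    · rw [e6, Int.modEq_iff_dvd]
      exact ⟨-(v : ℤ), by push_cast; ring⟩
  have b1 : (H : ℝ) ≤ 1 / 2 * (X / (q * Real.log X ^ A)) := by
    rw [← mul_div_assoc, le_div_iff₀ (by positivity)]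
    have g1 : X ^ (1 / 2 : ℝ) * X ^ (1 / 2 : ℝ) = X := by
      rw [← Real.rpow_add hX0]
      norm_num
    calc (H : ℝ) * (q * Real.log X ^ A) = 1 / 2 * (q * (2 * (H : ℝ) * Real.log X ^ A)) := by ring
      _ ≤ 1 / 2 * (X ^ (1 / 2 : ℝ) * X ^ (1 / 2 : ℝ)) := by gcongr
      _ = 1 / 2 * X := by rw [g1]
  have b2 : (X' : ℝ) / ((α * q : ℕ) * Real.log X' ^ (A + 1)) ≤ 1 / 2 * (X / (q * Real.log X ^ A)) := by
    have g1 : (X' : ℝ) / ((α * q : ℕ) * Real.log X' ^ (A + 1)) ≤ (α * (X * (H + 1))) / (α * (q * Real.log X ^ (A + 1))) := by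
      apply div_le_div₀ (by positivity) _ (by positivity)
      · push_cast
        rw [mul_assoc]
        gcongr
      · refine hX'le.trans ?_
        have : (H : ℝ) ≤ α * (X * H) := by
          have h3 : (1 : ℝ) ≤ α * X := by nlinarith
          nlinarith
        nlinarith
    rw [mul_div_mul_left _ _ (by positivity : (α : ℝ) ≠ 0)] at g1
    refine g1.trans ?_
    rw [pow_succ, ← mul_div_assoc, div_le_div_iff₀ (by positivity) (by positivity)]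
    have g2 : (H : ℝ) + 1 ≤ 1 / 2 * Real.log X := by linarith
    have g3 : 0 ≤ X * (q * Real.log X ^ A) := by positivity
    calc X * ((H : ℝ) + 1) * (q * Real.log X ^ A) = X * (q * Real.log X ^ A) * (H + 1) := by ring
      _ ≤ X * (q * Real.log X ^ A) * (1 / 2 * Real.log X) := mul_le_mul_of_nonneg_left g2 g3
      _ = 1 / 2 * X * (q * (Real.log X ^ A * Real.log X)) := by ring
  have b3 : (V1.card : ℝ) ≤ H := by exact_mod_cast hV1c
  rw [hcard]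
  push_cast
  linarith

theorem card_mono2 {N : ℕ} {P Q : ℕ → Prop} {dP : DecidablePred P} {dQ : DecidablePred Q} (h : ∀ m, P m → Q m) :
    (@Finset.filter _ P dP (Icc 1 N)).card ≤ (@Finset.filter _ Q dQ (Icc 1 N)).card :=
  card_le_card (fun m hm => Finset.mem_filter.2 ⟨(Finset.mem_filter.1 hm).1, h m (Finset.mem_filter.1 hm).2⟩)

/-- for almost all `m` the integer `α f m + h` has the property `Q` -/
theorem dens' {f : ℕ → ℕ} {c : ℤ} (hf : SM f c) (α : ℕ) (hα : 1 ≤ α) (h : ℤ) (Q : ℕ → Prop) (hQ : ∀ A, CB h Q A)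
    (ε : ℝ) (hε : 0 < ε) : ∃ N₀ : ℕ, ∀ N : ℕ, N₀ ≤ N →
      (((Icc 1 N).filter (fun m => ¬ (0 < (α : ℤ) * f m + h ∧ Q ((α : ℤ) * f m + h).toNat))).card : ℝ) ≤
        ε * N := by
  obtain ⟨N₀, h0⟩ := dens hf 1 _ (eb_of α hα h Q hQ) ε hε
  refine ⟨N₀, fun N hN => le_trans (Nat.cast_le.2 (card_mono2 ?_)) (h0 N hN)⟩
  intro m hm h1
  refine hm ?_
  obtain ⟨e1, e2, e3⟩ := h1
  rw [Int.toNat_of_nonneg e1.le] at e2 e3
  rw [add_sub_cancel_right] at e2 e3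
  exact ⟨e2, e3⟩

end Pool.Agent.N733.TG
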